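import Pool.Agent.Lib.WnF.Concl
import Pool.Agent.Lib.WnF.WVal

/-!
# MP_d6cb56_nt: numbers with `w_1 = … = w_n = w` for every real `w ≥ n`
-/

set_option autoImplicit false

namespace Pool.Agent.Results.MP_d6cb56_nt.EqualExponents

/-- The value at `ξ` of the integer polynomial with coefficients `P_0, …, P_n`. -/
noncomputable def value {n : ℕ} (P : Fin (n + 1) → ℤ) (ξ : ℝ) : ℝ := ∑ i, (P i : ℝ) * ξ ^ (i : ℕ)

/-- The height of an integer polynomial: the maximum of the absolute values of its coefficients. -/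
noncomputable def height {n : ℕ} (P : Fin (n + 1) → ℤ) : ℝ := ⨆ i, |(P i : ℝ)|

/-- The exponent `w_n(ξ)`: the supremum in `[-∞, +∞]` of the reals `r` for which there are infinitely
many integer polynomials `P` of degree `≤ n` with `0 < |P(ξ)| ≤ H(P)^{-r}`. -/
noncomputable def wexp (n : ℕ) (ξ : ℝ) : EReal :=
  sSup {l : EReal | ∃ r : ℝ, l = r ∧
    {P : Fin (n + 1) → ℤ | 0 < |value P ξ| ∧ |value P ξ| ≤ (height P) ^ (-r)}.Infinite}

lemma wexp_eq (n : ℕ) (ξ : ℝ) : wexp n ξ = Pool.Agent.WnF.wx n ξ := rfl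

/-- **Numbers with `w_1 = … = w_n = w`.** For every `n ≥ 1` and every real `w ≥ n` there is a real
transcendental number `ξ` with `w_1(ξ) = … = w_n(ξ) = w`. -/
theorem result : ∀ n : ℕ, 1 ≤ n → ∀ w : ℝ, (n:ℝ) ≤ w → ∃ ξ : ℝ, Transcendental ℚ ξ ∧
    ∀ m : ℕ, 1 ≤ m → m ≤ n → wexp m ξ = (w : EReal) := by
  intro n hn w hw
  obtain ⟨ξ, hξ, h1, h2⟩ := Pool.Agent.WnF.exists_xi n hn w hw
  refine ⟨ξ, hξ, fun m hm hmn => ?_⟩
  rw [wexp_eq]
  exact Pool.Agent.WnF.w_val n hn w hw ξ h1 h2 m hm hmn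

end Pool.Agent.Results.MP_d6cb56_nt.EqualExponents
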